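import Pool.Agent.LPR.Stmts

/-!
# PU2 (MP_005a41_gt, squad LPR): a partition of unity for two open sets
-/

set_option autoImplicit false

namespace Pool.Agent.LPR.H10

open Set Topology
open Pool.Agent.LSG Pool.Agent.LPR

theorem exists_u {X : Type} [TopologicalSpace X] [TopologicalSpace.MetrizableSpace X]
    (O : Set X) (hO : IsOpen O) :
    ∃ u : X → ℝ, Continuous u ∧ (∀ x, 0 ≤ u x) ∧ ∀ x, u x ≠ 0 ↔ x ∈ O := by
  letI := TopologicalSpace.metrizableSpaceMetric X
  by_cases h : O = univ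
  · exact ⟨fun _ => 1, continuous_const, fun _ => zero_le_one, fun x => by simp [h]⟩
  · have hne : Oᶜ.Nonempty := by rwa [Set.nonempty_compl]
    refine ⟨fun x => Metric.infDist x Oᶜ, Metric.continuous_infDist_pt _,
      fun x => Metric.infDist_nonneg, fun x => ⟨fun hx => ?_, fun hx h0 => ?_⟩⟩
    · by_contra hc
      exact hx ((hO.isClosed_compl.mem_iff_infDist_zero hne).mp hc)
    · exact ((hO.isClosed_compl.mem_iff_infDist_zero hne).mpr h0) hx

theorem mulOp {X : Type} [TopologicalSpace X] {O O1 : Set X} (χ : X → ℝ)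
    (h1 : ∀ x, |χ x| ≤ 1) (hc : ∀ x ∈ O, ContinuousAt χ x) (h0 : ∀ x, x ∉ O1 → χ x = 0) :
    ∃ M : ↥(Sg O) →L[ℝ] ↥(Sg O1), ∀ F x, (M F).1 x = χ x.1 * F.1 x := by
  have hcont : ∀ F : ↥(Sg O), Continuous fun x : X × OnePoint ℕ => χ x.1 * F.1 x := by
    intro F
    have hF : Continuous F.1 := F.2.1
    rw [continuous_iff_continuousAt]
    rintro ⟨x, n⟩
    by_cases hx : x ∈ O
    · have h2 : ContinuousAt (fun y : X × OnePoint ℕ => χ y.1) (x, n) :=
        ContinuousAt.comp (f := Prod.fst) (g := χ) (hc x hx) continuous_fst.continuousAt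
      exact h2.mul hF.continuousAt
    · have hz : F.1 (x, n) = 0 := F.2.2.1 x hx n
      have h3 : Filter.Tendsto (fun y : X × OnePoint ℕ => |F.1 y|) (𝓝 (x, n)) (𝓝 0) := by
        have h4 : Filter.Tendsto (fun y : X × OnePoint ℕ => |F.1 y|) (𝓝 (x, n))
            (𝓝 |F.1 (x, n)|) := hF.abs.continuousAt
        rw [hz, abs_zero] at h4
        exact h4
      show Filter.Tendsto (fun y : X × OnePoint ℕ => χ y.1 * F.1 y) (𝓝 (x, n))
        (𝓝 (χ x * F.1 (x, n)))
      rw [hz, mul_zero]
      refine squeeze_zero_norm (fun y => ?_) h3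
      rw [Real.norm_eq_abs, abs_mul]
      exact mul_le_of_le_one_left (abs_nonneg _) (h1 _)
  refine ⟨{ toFun := fun F => ⟨fun x => χ x.1 * F.1 x, hcont F, fun x hx n => ?_, fun x => ?_⟩
            map_add' := ?_
            map_smul' := ?_
            cont := ?_ }, fun F x => rfl⟩
  · show χ x * F.1 (x, n) = 0
    rw [h0 x hx, zero_mul]
  · show χ x * F.1 (x, OnePoint.infty) = 0
    rw [F.2.2.2 x, mul_zero]
  · intro F G
    apply Subtype.ext
    funext x
    exact mul_add _ _ _
  · intro r F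
    apply Subtype.ext
    funext x
    show χ x.1 * (r * F.1 x) = r * (χ x.1 * F.1 x)
    ring
  · refine Continuous.subtype_mk (continuous_pi fun x => ?_) _
    exact continuous_const.mul ((continuous_apply x).comp continuous_subtype_val)

theorem pu2 : Pu2Stmt := by
  intro X _ _ O₁ O₂ hO₁ hO₂
  obtain ⟨u₁, hu₁, hp₁, he₁⟩ := exists_u O₁ hO₁
  obtain ⟨u₂, hu₂, hp₂, he₂⟩ := exists_u O₂ hO₂
  have hpos : ∀ x ∈ O₁ ∪ O₂, 0 < u₁ x + u₂ x := by
    rintro x (hx | hx)
    · have h1 : 0 < u₁ x := lt_of_le_of_ne (hp₁ x) (Ne.symm ((he₁ x).mpr hx))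
      have h2 := hp₂ x
      linarith
    · have h1 : 0 < u₂ x := lt_of_le_of_ne (hp₂ x) (Ne.symm ((he₂ x).mpr hx))
      have h2 := hp₁ x
      linarith
  obtain ⟨M₁, hM₁⟩ := mulOp (O := O₁ ∪ O₂) (O1 := O₁) (fun x => u₁ x / (u₁ x + u₂ x))
    (by
      intro x
      have h1 := hp₁ x
      have h2 := hp₂ x
      rw [abs_of_nonneg (div_nonneg h1 (add_nonneg h1 h2))]
      exact div_le_one_of_le₀ (by linarith) (add_nonneg h1 h2))
    (by
      intro x hx
      exact hu₁.continuousAt.div (hu₁.add hu₂).continuousAt (hpos x hx).ne')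
    (by
      intro x hx
      have h1 : u₁ x = 0 := by
        by_contra hne
        exact hx ((he₁ x).mp hne)
      show u₁ x / (u₁ x + u₂ x) = 0
      rw [h1, zero_div])
  obtain ⟨M₂, hM₂⟩ := mulOp (O := O₁ ∪ O₂) (O1 := O₂) (fun x => u₂ x / (u₁ x + u₂ x))
    (by
      intro x
      have h1 := hp₁ x
      have h2 := hp₂ x
      rw [abs_of_nonneg (div_nonneg h2 (add_nonneg h1 h2))]
      exact div_le_one_of_le₀ (by linarith) (add_nonneg h1 h2))
    (by
      intro x hx
      exact hu₂.continuousAt.div (hu₁.add hu₂).continuousAt (hpos x hx).ne')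
    (by
      intro x hx
      have h1 : u₂ x = 0 := by
        by_contra hne
        exact hx ((he₂ x).mp hne)
      show u₂ x / (u₁ x + u₂ x) = 0
      rw [h1, zero_div])
  let p : (↥(Sg O₁) × ↥(Sg O₂)) →L[ℝ] ↥(Sg (O₁ ∪ O₂)) :=
    { toFun := fun G => ⟨fun x => G.1.1 x + G.2.1 x, G.1.2.1.add G.2.2.1, fun x hx n => by
          show G.1.1 (x, n) + G.2.1 (x, n) = 0
          rw [G.1.2.2.1 x (fun h => hx (Or.inl h)) n, G.2.2.2.1 x (fun h => hx (Or.inr h)) n,
            add_zero], fun x => by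
          show G.1.1 (x, OnePoint.infty) + G.2.1 (x, OnePoint.infty) = 0
          rw [G.1.2.2.2 x, G.2.2.2.2 x, add_zero]⟩
      map_add' := by
        intro F G
        apply Subtype.ext
        funext x
        exact add_add_add_comm _ _ _ _
      map_smul' := by
        intro r F
        apply Subtype.ext
        funext x
        exact (mul_add _ _ _).symm
      cont := by
        refine Continuous.subtype_mk (continuous_pi fun x => ?_) _
        exact ((continuous_apply x).comp (continuous_subtype_val.comp continuous_fst)).add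
          ((continuous_apply x).comp (continuous_subtype_val.comp continuous_snd)) }
  refine ⟨M₁.prod M₂, p, fun F => ?_⟩
  apply Subtype.ext
  funext x
  show (M₁ F).1 x + (M₂ F).1 x = F.1 x
  rw [hM₁, hM₂]
  by_cases hx : x.1 ∈ O₁ ∪ O₂
  · have h1 := hpos x.1 hx
    rw [← add_mul, ← add_div, div_self h1.ne', one_mul]
  · have h2 : F.1 x = 0 := F.2.2.1 x.1 hx x.2
    rw [h2, mul_zero, mul_zero, add_zero]

end Pool.Agent.LPR.H10
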